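import Mathlib
import Pool.Agent.K4W.StmtsP

set_option autoImplicit false

/-! Squad K4W, row TRV: trivial bound for theta near a fraction. -/

namespace Pool.Agent.K4W.H2

open Complex Pool.Agent.K4W
open Pool.Agent.Helper69_Weyl (ee W)

theorem exists_inv (r : ℕ) (a : ℤ) (hr : Odd r) (ha : IsCoprime a (r : ℤ)) :
    ∃ w : ℤ, (r : ℤ) ∣ 4 * a * w - 1 := by
  have h2 : IsCoprime (2 : ℤ) (r : ℤ) := by
    obtain ⟨k, hk⟩ := hr
    refine ⟨-(k : ℤ), 1, ?_⟩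
    rw [hk]
    push_cast
    ring
  have h4 : IsCoprime (4 * a) (r : ℤ) := by
    have : (4 : ℤ) * a = 2 * (2 * a) := by ring
    rw [this]
    exact h2.mul_left (h2.mul_left ha)
  obtain ⟨u, v, huv⟩ := h4
  refine ⟨u, -v, ?_⟩
  linear_combination huv

theorem trv (fac : FacStmt) (gab : GabStmt) (szs : SzsStmt) : TrvStmt := by
  intro N r a γ hN hr ha
  have hr0 : 0 < r := hr.pos
  obtain ⟨w, hw⟩ := exists_inv r a hr ha
  rw [fac N r a w γ hN hr0 hw, norm_mul]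
  obtain ⟨hs, hb, _⟩ := szs N r γ hN hr0
  have hrr : (0 : ℝ) < (r : ℝ) := by exact_mod_cast hr0
  have h1 : ‖(((r : ℝ) ^ (-(1 / 2) : ℝ) : ℝ) : ℂ) * GS r a 0‖ = 1 := by
    rw [norm_mul, gab r a 0 w hr0 hw, Complex.norm_real, Real.norm_eq_abs,
      abs_of_pos (Real.rpow_pos_of_pos hrr _), Real.sqrt_eq_rpow, ← Real.rpow_add hrr]
    norm_num
  rw [h1, one_mul]
  have he : ∀ m : ℤ, ‖cf N r γ m * ee (((-(w * m ^ 2) : ℤ) : ℝ) / (r : ℝ))‖ = ‖cf N r γ m‖ := by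
    intro m
    rw [norm_mul, Pool.Agent.Helper69_Weyl.norm_ee, mul_one]
  have hs' : Summable fun m : ℤ => ‖cf N r γ m * ee (((-(w * m ^ 2) : ℤ) : ℝ) / (r : ℝ))‖ := by
    simp only [he]
    exact hs
  refine (norm_tsum_le_tsum_norm hs').trans ?_
  simp only [he]
  exact hb

end Pool.Agent.K4W.H2
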